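import Mathlib

/-!
# Semi-arc `k`-visibility graphs: definitions
-/

namespace Pool.Agent.R32.SA

open Real

/-- The point of the plane with polar coordinates `(r, θ)`. -/
noncomputable def pt (r θ : ℝ) : ℝ × ℝ := (r * cos θ, r * sin θ)

/-- The closed arc of the circle of radius `r` centred at the origin, from angle `a` to angle
`b`. -/
def arc (r a b : ℝ) : Set (ℝ × ℝ) := {p | ∃ θ, a ≤ θ ∧ θ ≤ b ∧ p = pt r θ}

/-- The region of all points with polar coordinates `(ρ, θ)`, `r₁ ≤ ρ ≤ r₂`, `a ≤ θ ≤ b`. -/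
def sector (r₁ r₂ a b : ℝ) : Set (ℝ × ℝ) :=
  {p | ∃ ρ θ, r₁ ≤ ρ ∧ ρ ≤ r₂ ∧ a ≤ θ ∧ θ ≤ b ∧ p = pt ρ θ}

/-- `IsCone C e₁ e₂`: the region `C` is a (non-degenerate) cone with circular sides `e₁`, `e₂`.
The two radial sides either do not cross (`straight`), or cross in the origin (`crossed`). -/
inductive IsCone : Set (ℝ × ℝ) → Set (ℝ × ℝ) → Set (ℝ × ℝ) → Prop
  | straight (r₁ r₂ a b : ℝ) (h₁ : 0 < r₁) (h₂ : r₁ < r₂) (hab : a < b) (hb : b < a + 2 * π) :
      IsCone (sector r₁ r₂ a b) (arc r₁ a b) (arc r₂ a b)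
  | crossed (r₁ r₂ a b : ℝ) (h₁ : 0 < r₁) (h₂ : 0 < r₂) (hab : a < b) (hb : b < a + π) :
      IsCone (sector 0 r₁ a b ∪ sector 0 r₂ (a + π) (b + π))
        (arc r₁ a b) (arc r₂ (a + π) (b + π))

/-- A family of `n` pairwise disjoint arcs centred at the origin: the `i`-th arc is the set of
points `(r i, θ)`, `α i ≤ θ ≤ β i`, in polar coordinates, where `0 < r i`, `0 ≤ α i < 2π` and
`0 ≤ β i - α i < 2π`. -/
structure ArcFamily (n : ℕ) where
  r : Fin n → ℝ
  α : Fin n → ℝ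
  β : Fin n → ℝ
  r_pos : ∀ i, 0 < r i
  α_nonneg : ∀ i, 0 ≤ α i
  α_lt : ∀ i, α i < 2 * π
  le_β : ∀ i, α i ≤ β i
  β_lt : ∀ i, β i < α i + 2 * π
  disj : Pairwise fun i j => Disjoint (arc (r i) (α i) (β i)) (arc (r j) (α j) (β j))

variable {n : ℕ}

/-- The `i`-th arc of the family, as a set of points. -/
def ArcFamily.carrier (F : ArcFamily n) (i : Fin n) : Set (ℝ × ℝ) := arc (F.r i) (F.α i) (F.β i)

/-- The arcs `i` and `j` of the family are `k`-visible: some cone has its two circular sides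
contained in arc `i` and arc `j` respectively, and meets at most `k` other arcs of the family. -/
def ArcFamily.Visible (F : ArcFamily n) (k : ℕ) (i j : Fin n) : Prop :=
  ∃ C e₁ e₂, IsCone C e₁ e₂ ∧
    ((e₁ ⊆ F.carrier i ∧ e₂ ⊆ F.carrier j) ∨ (e₁ ⊆ F.carrier j ∧ e₂ ⊆ F.carrier i)) ∧
    {c | c ≠ i ∧ c ≠ j ∧ (C ∩ F.carrier c).Nonempty}.ncard ≤ k

/-- `G` is a semi-arc `k`-visibility graph: its vertices are represented by pairwise disjoint
arcs whose negative endpoints lie on the positive `x`-axis (`α i = 0`), two vertices being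
adjacent exactly when their arcs are `k`-visible. -/
def IsSemiArcGraph (k : ℕ) (G : SimpleGraph (Fin n)) : Prop :=
  ∃ F : ArcFamily n, (∀ i, F.α i = 0) ∧ ∀ i j, i ≠ j → (G.Adj i j ↔ F.Visible k i j)

/-- The possible edge numbers of semi-arc `k`-visibility graphs on `n` vertices. -/
def edgeNumbers (k n : ℕ) : Set ℕ :=
  {m | ∃ G : SimpleGraph (Fin n), IsSemiArcGraph k G ∧ G.edgeSet.ncard = m}

/-- `e k n`: the maximum number of edges of a semi-arc `k`-visibility graph on `n` vertices. -/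
noncomputable def e (k n : ℕ) : ℕ := sSup (edgeNumbers k n)

end Pool.Agent.R32.SA
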