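import Mathlib

/-!
# Semi-arc `k`-visibility graphs: the discrete upper bound
-/

namespace Pool.Agent.R32.SA

open Finset

theorem card_first_le {α : Type*} [DecidableEq α] (X : Finset α) (f : α → ℝ)
    (hf : Set.InjOn f X) (c K : ℕ) :
    (X.filter fun w => c + (X.filter fun z => f z < f w).card < K).card ≤ K - c := by
  have h := Finset.card_le_card_of_injOn
    (s := X.filter fun w => c + (X.filter fun z => f z < f w).card < K)
    (t := Finset.range (K - c)) (fun w => (X.filter fun z => f z < f w).card) ?_ ?_
  · simpa using h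
  · intro w hw
    simp only [coe_filter, Set.mem_setOf_eq] at hw
    simp only [coe_range, Set.mem_Iio]
    omega
  · have key : ∀ w w', w ∈ X → w' ∈ X → f w < f w' →
        (X.filter fun z => f z < f w).card < (X.filter fun z => f z < f w').card := by
      intro w w' hw hw' hlt
      apply Finset.card_lt_card
      refine ⟨fun z hz => ?_, fun hsub => ?_⟩
      · simp only [mem_filter] at hz ⊢
        exact ⟨hz.1, hz.2.trans hlt⟩
      · have := hsub (show w ∈ _ by simpa only [mem_filter] using ⟨hw, hlt⟩)
        simp at this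
    intro w hw w' hw' heq
    simp only [coe_filter, Set.mem_setOf_eq] at hw hw'
    by_contra hne
    rcases lt_or_gt_of_ne (fun h => hne (hf hw.1 hw'.1 h)) with hlt | hlt
    · have := key w w' hw.1 hw'.1 hlt
      simp only at heq
      omega
    · have := key w' w hw'.1 hw.1 hlt
      simp only at heq
      omega

variable {n : ℕ}

/-- The event of `v` comes before the event of `w`. -/
def later (key : Fin n → ℝ) (v w : Fin n) : Prop := key v < key w ∨ (key v = key w ∧ v < w)

theorem later_total {key : Fin n → ℝ} {v w : Fin n} (h : v ≠ w) : later key v w ∨ later key w v := by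
  unfold later
  rcases lt_trichotomy (key v) (key w) with h1 | h1 | h1
  · exact Or.inl (Or.inl h1)
  · rcases lt_or_gt_of_ne h with h2 | h2
    · exact Or.inl (Or.inr ⟨h1, h2⟩)
    · exact Or.inr (Or.inr ⟨h1.symm, h2⟩)
  · exact Or.inr (Or.inl h1)

theorem later_asymm {key : Fin n → ℝ} {v w : Fin n} (h : later key v w) : ¬ later key w v := by
  unfold later at *
  rintro (h1 | ⟨h1, h2⟩)
  · rcases h with h | ⟨h, -⟩
    · exact absurd h (not_lt.2 h1.le)
    · exact absurd h (ne_of_gt h1)
  · rcases h with h | ⟨h, h3⟩
    · exact absurd h (by rw [h1]; exact lt_irrefl _)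
    · exact absurd h2 (not_lt.2 h3.le)

theorem later_le {key : Fin n → ℝ} {v w : Fin n} (h : later key v w) : key v ≤ key w := by
  rcases h with h | ⟨h, -⟩
  · exact h.le
  · exact h.le

open Classical in
/-- Arcs present on side `A` at the event of `v`. -/
noncomputable def Aset (L : Finset (Fin n)) (key : Fin n → ℝ) (v : Fin n) : Finset (Fin n) :=
  univ.filter fun w => w ≠ v ∧ (w ∈ L ∨ later key v w)

open Classical in
/-- Arcs present on side `B` at the event of `v`. -/
noncomputable def Bset (L : Finset (Fin n)) (key : Fin n → ℝ) (v : Fin n) : Finset (Fin n) :=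
  univ.filter fun w => w ∈ L ∧ later key v w

theorem mem_Aset {L : Finset (Fin n)} {key : Fin n → ℝ} {v w : Fin n} :
    w ∈ Aset L key v ↔ w ≠ v ∧ (w ∈ L ∨ later key v w) := by
  simp [Aset]

theorem mem_Bset {L : Finset (Fin n)} {key : Fin n → ℝ} {v w : Fin n} :
    w ∈ Bset L key v ↔ w ∈ L ∧ later key v w := by
  simp [Bset]

noncomputable def Cset (L : Finset (Fin n)) (key : Fin n → ℝ) (v : Fin n) : Finset (Fin n) :=
  if v ∈ L then Bset L key v else Aset L key v

noncomputable def Yset (L : Finset (Fin n)) (key r : Fin n → ℝ) (v : Fin n) : Finset (Fin n) :=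
  if v ∈ L then (Aset L key v \ Bset L key v).filter (fun w => r w < r v)
  else (Bset L key v).filter (fun w => r v < r w)

noncomputable def Up (K : ℕ) (L : Finset (Fin n)) (key r : Fin n → ℝ) (v : Fin n) :
    Finset (Fin n) :=
  ((Cset L key v).filter fun w => r v < r w).filter fun w =>
    0 + (((Cset L key v).filter fun w => r v < r w).filter fun z => r z < r w).card < K

noncomputable def Down (K : ℕ) (L : Finset (Fin n)) (key r : Fin n → ℝ) (v : Fin n) :
    Finset (Fin n) :=
  ((Cset L key v).filter fun w => r w < r v).filter fun w =>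
    0 + (((Cset L key v).filter fun w => r w < r v).filter fun z => -r z < -r w).card < K

noncomputable def Tset (K : ℕ) (L : Finset (Fin n)) (key r : Fin n → ℝ) (v : Fin n) :
    Finset (Fin n) :=
  (Yset L key r v).filter fun w =>
    ((Cset L key v).filter fun w => r w < r v).card +
      ((Yset L key r v).filter fun z => r z < r w).card < K

noncomputable def Nset (K : ℕ) (L : Finset (Fin n)) (key r : Fin n → ℝ) (v : Fin n) :
    Finset (Fin n) :=
  Up K L key r v ∪ (Down K L key r v ∪ Tset K L key r v)

noncomputable def above (r : Fin n → ℝ) (v : Fin n) : ℕ := (univ.filter fun w => r v < r w).card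

theorem card_Nset_le {K : ℕ} {L : Finset (Fin n)} {key r : Fin n → ℝ} (hr : Function.Injective r)
    (v : Fin n) : (Nset K L key r v).card ≤ min K (above r v) + K := by
  have hU : (Up K L key r v).card ≤ K := by
    have := card_first_le ((Cset L key v).filter fun w => r v < r w) r hr.injOn 0 K
    simpa [Up] using this
  have hU2 : (Up K L key r v).card ≤ above r v := by
    apply Finset.card_le_card
    intro w hw
    simp only [Up, mem_filter] at hw
    simp only [mem_filter, mem_univ, true_and]
    exact hw.1.2
  have hD : (Down K L key r v).card ≤ K := by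
    have := card_first_le ((Cset L key v).filter fun w => r w < r v) (fun z => - r z)
      (fun a _ b _ h => hr (neg_injective h)) 0 K
    simpa [Down] using this
  have hD2 : (Down K L key r v).card ≤ ((Cset L key v).filter fun w => r w < r v).card :=
    Finset.card_le_card (Finset.filter_subset _ _)
  have hT : (Tset K L key r v).card ≤ K - ((Cset L key v).filter fun w => r w < r v).card :=
    card_first_le (Yset L key r v) r hr.injOn _ K
  have h1 : (Nset K L key r v).card ≤ (Up K L key r v).card +
      ((Down K L key r v).card + (Tset K L key r v).card) :=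
    (Finset.card_union_le _ _).trans (Nat.add_le_add_left (Finset.card_union_le _ _) _)
  have h2 : (Up K L key r v).card ≤ min K (above r v) := le_min hU hU2
  omega

/-! ### every visible pair is in some `Nset` -/

section cover

variable {k : ℕ} {L : Finset (Fin n)} {key r : Fin n → ℝ} {φ : ℝ}

theorem mem_Up {v w : Fin n} (hw : w ∈ Cset L key v) (hr : r v < r w) (S : Finset (Fin n))
    (hS : ∀ z ∈ Cset L key v, r v < r z → r z < r w → z ∈ S) (hk : S.card ≤ k) :
    w ∈ Nset (k + 1) L key r v := by
  apply mem_union_left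
  simp only [Up, mem_filter, zero_add]
  refine ⟨⟨hw, hr⟩, ?_⟩
  refine Nat.lt_succ_of_le (le_trans (Finset.card_le_card ?_) hk)
  intro z hz
  simp only [mem_filter] at hz
  exact hS z hz.1.1 hz.1.2 hz.2

theorem mem_Down {v w : Fin n} (hw : w ∈ Cset L key v) (hr : r w < r v) (S : Finset (Fin n))
    (hS : ∀ z ∈ Cset L key v, r w < r z → r z < r v → z ∈ S) (hk : S.card ≤ k) :
    w ∈ Nset (k + 1) L key r v := by
  apply mem_union_right
  apply mem_union_left
  simp only [Down, mem_filter, zero_add]
  refine ⟨⟨hw, hr⟩, ?_⟩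
  refine Nat.lt_succ_of_le (le_trans (Finset.card_le_card ?_) hk)
  intro z hz
  simp only [mem_filter] at hz
  exact hS z hz.1.1 (neg_lt_neg_iff.1 hz.2) hz.1.2

theorem mem_T {v w : Fin n} (hw : w ∈ Yset L key r v) (S : Finset (Fin n))
    (hS : ∀ z ∈ Cset L key v, r z < r v → z ∈ S)
    (hS' : ∀ z ∈ Yset L key r v, r z < r w → z ∈ S)
    (hd : ∀ z ∈ Cset L key v, r z < r v → z ∉ Yset L key r v) (hk : S.card ≤ k) :
    w ∈ Nset (k + 1) L key r v := by
  apply mem_union_right
  apply mem_union_right
  simp only [Tset, mem_filter]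
  refine ⟨hw, Nat.lt_succ_of_le (le_trans ?_ hk)⟩
  rw [← Finset.card_union_of_disjoint]
  · apply Finset.card_le_card
    intro z hz
    rw [mem_union, mem_filter, mem_filter] at hz
    rcases hz with hz | hz
    · exact hS z hz.1 hz.2
    · exact hS' z hz.1 hz.2
  · rw [Finset.disjoint_left]
    intro z hz hz'
    rw [mem_filter] at hz hz'
    exact hd z hz.1 hz.2 hz'.1

/-- `c` is present on side `A` (angle `φ`). -/
def inA (L : Finset (Fin n)) (key : Fin n → ℝ) (φ : ℝ) (c : Fin n) : Prop := c ∈ L ∨ φ ≤ key c

/-- `c` is present on side `B` (angle `φ + π`). -/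
def inB (L : Finset (Fin n)) (key : Fin n → ℝ) (φ : ℝ) (c : Fin n) : Prop := c ∈ L ∧ φ ≤ key c

theorem cover_A {u w : Fin n} (hne : u ≠ w) (hr : r u < r w) (hu : inA L key φ u)
    (hw : inA L key φ w) (S : Finset (Fin n))
    (hS : ∀ c, inA L key φ c → r u < r c → r c < r w → c ∈ S) (hk : S.card ≤ k) :
    w ∈ Nset (k + 1) L key r u ∨ u ∈ Nset (k + 1) L key r w := by
  have hAin : ∀ v, v ∉ L → inA L key φ v → ∀ z ∈ Cset L key v, inA L key φ z := by
    intro v hv hva z hz
    rw [Cset, if_neg hv, mem_Aset] at hz
    rcases hz.2 with h | h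
    · exact Or.inl h
    · rcases hva with h' | h'
      · exact absurd h' hv
      · exact Or.inr (h'.trans (later_le h))
  by_cases huL : u ∈ L
  · by_cases hwL : w ∈ L
    · rcases later_total (key := key) hne with h | h
      · left
        refine mem_Up (by rw [Cset, if_pos huL, mem_Bset]; exact ⟨hwL, h⟩) hr S ?_ hk
        intro z hz h1 h2
        rw [Cset, if_pos huL, mem_Bset] at hz
        exact hS z (Or.inl hz.1) h1 h2
      · right
        refine mem_Down (by rw [Cset, if_pos hwL, mem_Bset]; exact ⟨huL, h⟩) hr S ?_ hk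
        intro z hz h1 h2
        rw [Cset, if_pos hwL, mem_Bset] at hz
        exact hS z (Or.inl hz.1) h1 h2
    · right
      refine mem_Down (by rw [Cset, if_neg hwL, mem_Aset]; exact ⟨hne, Or.inl huL⟩) hr S ?_ hk
      intro z hz h1 h2
      exact hS z (hAin w hwL hw z hz) h1 h2
  · by_cases hwL : w ∈ L
    · left
      refine mem_Up (by rw [Cset, if_neg huL, mem_Aset]; exact ⟨hne.symm, Or.inl hwL⟩) hr S ?_ hk
      intro z hz h1 h2
      exact hS z (hAin u huL hu z hz) h1 h2
    · rcases later_total (key := key) hne with h | h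
      · left
        refine mem_Up (by rw [Cset, if_neg huL, mem_Aset]; exact ⟨hne.symm, Or.inr h⟩) hr S ?_ hk
        intro z hz h1 h2
        exact hS z (hAin u huL hu z hz) h1 h2
      · right
        refine mem_Down (by rw [Cset, if_neg hwL, mem_Aset]; exact ⟨hne, Or.inr h⟩) hr S ?_ hk
        intro z hz h1 h2
        exact hS z (hAin w hwL hw z hz) h1 h2

theorem cover_B {u w : Fin n} (hne : u ≠ w) (hr : r u < r w) (hu : inB L key φ u)
    (hw : inB L key φ w) (S : Finset (Fin n))
    (hS : ∀ c, inB L key φ c → r u < r c → r c < r w → c ∈ S) (hk : S.card ≤ k) :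
    w ∈ Nset (k + 1) L key r u ∨ u ∈ Nset (k + 1) L key r w := by
  rcases later_total (key := key) hne with h | h
  · left
    refine mem_Up (by rw [Cset, if_pos hu.1, mem_Bset]; exact ⟨hw.1, h⟩) hr S ?_ hk
    intro z hz h1 h2
    rw [Cset, if_pos hu.1, mem_Bset] at hz
    exact hS z ⟨hz.1, hu.2.trans (later_le hz.2)⟩ h1 h2
  · right
    refine mem_Down (by rw [Cset, if_pos hw.1, mem_Bset]; exact ⟨hu.1, h⟩) hr S ?_ hk
    intro z hz h1 h2
    rw [Cset, if_pos hw.1, mem_Bset] at hz
    exact hS z ⟨hz.1, hw.2.trans (later_le hz.2)⟩ h1 h2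

theorem cover_X {u w : Fin n} (hne : u ≠ w) (hr : r u < r w) (hu : inA L key φ u)
    (hw : inB L key φ w) (S : Finset (Fin n))
    (hS : ∀ c, c ≠ u → c ≠ w → ((inA L key φ c ∧ r c < r u) ∨ (inB L key φ c ∧ r c < r w)) → c ∈ S)
    (hk : S.card ≤ k) :
    w ∈ Nset (k + 1) L key r u ∨ u ∈ Nset (k + 1) L key r w := by
  have hTw : u ∈ Aset L key w → u ∉ Bset L key w → u ∈ Nset (k + 1) L key r w := by
    intro h1 h2
    refine mem_T (S := S) ?_ ?_ ?_ ?_ hk
    · rw [Yset, if_pos hw.1, mem_filter, mem_sdiff]
      exact ⟨⟨h1, h2⟩, hr⟩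
    · intro z hz hzr
      rw [Cset, if_pos hw.1] at hz
      have hz' := mem_Bset.1 hz
      exact hS z (fun h => h2 (h ▸ hz)) (fun h => (ne_of_lt hzr) (by rw [h]))
        (Or.inr ⟨⟨hz'.1, hw.2.trans (later_le hz'.2)⟩, hzr⟩)
    · intro z hz hzr
      rw [Yset, if_pos hw.1, mem_filter, mem_sdiff, mem_Aset] at hz
      refine hS z (fun h => (ne_of_lt hzr) (by rw [h])) hz.1.1.1 (Or.inl ⟨?_, hzr⟩)
      rcases hz.1.1.2 with h | h
      · exact Or.inl h
      · exact Or.inr (hw.2.trans (later_le h))
    · intro z hz _ hz'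
      rw [Cset, if_pos hw.1] at hz
      rw [Yset, if_pos hw.1, mem_filter, mem_sdiff] at hz'
      exact hz'.1.2 hz
  by_cases huL : u ∈ L
  · rcases later_total (key := key) hne with h | h
    · right
      exact hTw (mem_Aset.2 ⟨hne, Or.inl huL⟩) (fun h' => later_asymm h (mem_Bset.1 h').2)
    · right
      refine mem_Down (by rw [Cset, if_pos hw.1, mem_Bset]; exact ⟨huL, h⟩) hr S ?_ hk
      intro z hz h1 h2
      rw [Cset, if_pos hw.1, mem_Bset] at hz
      exact hS z (fun h => (ne_of_gt h1) (by rw [h])) (fun h => (ne_of_lt h2) (by rw [h]))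
        (Or.inr ⟨⟨hz.1, hw.2.trans (later_le hz.2)⟩, h2⟩)
  · have hφu : φ ≤ key u := by
      rcases hu with h | h
      · exact absurd h huL
      · exact h
    rcases later_total (key := key) hne with h | h
    · left
      refine mem_T (S := S) ?_ ?_ ?_ ?_ hk
      · rw [Yset, if_neg huL, mem_filter, mem_Bset]
        exact ⟨⟨hw.1, h⟩, hr⟩
      · intro z hz hzr
        rw [Cset, if_neg huL, mem_Aset] at hz
        refine hS z hz.1 (fun h => (ne_of_lt (hzr.trans hr)) (by rw [h])) (Or.inl ⟨?_, hzr⟩)
        rcases hz.2 with h' | h'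
        · exact Or.inl h'
        · exact Or.inr (hφu.trans (later_le h'))
      · intro z hz hzr
        rw [Yset, if_neg huL, mem_filter, mem_Bset] at hz
        exact hS z (fun h => (ne_of_gt hz.2) (by rw [h])) (fun h => (ne_of_lt hzr) (by rw [h]))
          (Or.inr ⟨⟨hz.1.1, hφu.trans (later_le hz.1.2)⟩, hzr⟩)
      · intro z _ hzr hz'
        rw [Yset, if_neg huL, mem_filter] at hz'
        exact lt_asymm hzr hz'.2
    · right
      exact hTw (mem_Aset.2 ⟨hne, Or.inr h⟩) (fun h' => huL (mem_Bset.1 h').1)

end cover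

/-! ### counting -/

theorem sum_above {r : Fin n → ℝ} (hr : Function.Injective r) (g : ℕ → ℕ) :
    ∑ v, g (above r v) = ∑ i ∈ range n, g i := by
  have hinj : Function.Injective (above r) := by
    have key : ∀ v w, r v < r w → above r w < above r v := by
      intro v w h
      apply Finset.card_lt_card
      refine ⟨fun z hz => ?_, fun hsub => ?_⟩
      · simp only [mem_filter, mem_univ, true_and] at hz ⊢
        exact h.trans hz
      · have := hsub (show w ∈ _ by simpa using h)
        simp at this
    intro v w h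
    by_contra hne
    rcases lt_or_gt_of_ne (fun h' => hne (hr h')) with h' | h'
    · exact absurd h (ne_of_gt (key v w h'))
    · exact absurd h (ne_of_lt (key w v h'))
  have hlt : ∀ v, above r v < n := by
    intro v
    calc above r v < (univ : Finset (Fin n)).card := by
          apply Finset.card_lt_card
          refine ⟨fun z _ => mem_univ z, fun hsub => ?_⟩
          have := hsub (mem_univ v)
          simp at this
      _ = n := by simp
  have himg : (univ : Finset (Fin n)).image (above r) = range n := by
    apply Finset.eq_of_subset_of_card_le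
    · intro i hi
      simp only [mem_image, mem_univ, true_and] at hi
      obtain ⟨v, rfl⟩ := hi
      exact mem_range.2 (hlt v)
    · rw [Finset.card_image_of_injective _ hinj]
      simp
  rw [← himg, Finset.sum_image (fun a _ b _ h => hinj h)]

theorem sum_min (K m : ℕ) : 2 * ∑ i ∈ range (K + m), min K i + K * (K + 1) = 2 * K * (K + m) := by
  induction m with
  | zero =>
    have h : ∑ i ∈ range (K + 0), min K i = ∑ i ∈ range K, i := by
      apply Finset.sum_congr rfl
      intro i hi
      have := mem_range.1 hi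
      omega
    rw [h]
    have := Finset.sum_range_id_mul_two K
    rcases K with _ | K
    · simp
    · simp only [Nat.add_sub_cancel] at this
      nlinarith
  | succ m ih =>
    rw [← Nat.add_assoc, Finset.sum_range_succ, min_eq_left (by omega)]
    nlinarith

theorem edges_le {K : ℕ} {L : Finset (Fin n)} {key r : Fin n → ℝ} (hr : Function.Injective r)
    (G : SimpleGraph (Fin n))
    (hG : ∀ u w, G.Adj u w → w ∈ Nset K L key r u ∨ u ∈ Nset K L key r w) :
    G.edgeSet.ncard ≤ ∑ i ∈ range n, (min K i + K) := by
  classical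
  have h1 : G.edgeSet ⊆ (((univ : Finset (Fin n)).sigma fun v => Nset K L key r v).image
      fun p => s(p.1, p.2) : Finset (Sym2 (Fin n))) := by
    intro x hx
    induction x with
    | _ u w =>
      have := hG u w hx
      simp only [coe_image, Set.mem_image, mem_coe, mem_sigma, mem_univ, true_and]
      rcases this with h | h
      · exact ⟨⟨u, w⟩, h, rfl⟩
      · exact ⟨⟨w, u⟩, h, Sym2.eq_swap⟩
  calc G.edgeSet.ncard ≤ (((univ : Finset (Fin n)).sigma fun v => Nset K L key r v).image
      fun p => s(p.1, p.2) : Finset (Sym2 (Fin n))).card := by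
        rw [← Set.ncard_coe_finset]
        exact Set.ncard_le_ncard h1 (Finset.finite_toSet _)
    _ ≤ ((univ : Finset (Fin n)).sigma fun v => Nset K L key r v).card := Finset.card_image_le
    _ = ∑ v, (Nset K L key r v).card := Finset.card_sigma _ _
    _ ≤ ∑ v, (min K (above r v) + K) := Finset.sum_le_sum fun v _ => card_Nset_le hr v
    _ = ∑ i ∈ range n, (min K i + K) := sum_above hr (fun i => min K i + K)

end Pool.Agent.R32.SA
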