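import Pool.Agent.R32.SA.Defs
import Pool.Agent.R32.SA.Upper

/-!
# Semi-arc `k`-visibility graphs: from the plane to the discrete model
-/

namespace Pool.Agent.R32.SA

open Real

theorem pt_inj {r ρ θ θ' : ℝ} (hr : 0 < r) (hρ : 0 ≤ ρ) (h : pt r θ = pt ρ θ') :
    r = ρ ∧ cos θ = cos θ' ∧ sin θ = sin θ' := by
  unfold pt at h
  rw [Prod.mk.injEq] at h
  obtain ⟨h1, h2⟩ := h
  have e1 : r ^ 2 = ρ ^ 2 := by
    have ha : (r * cos θ) ^ 2 + (r * sin θ) ^ 2 = r ^ 2 := by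
      have := sin_sq_add_cos_sq θ
      nlinarith [this]
    have hb : (ρ * cos θ') ^ 2 + (ρ * sin θ') ^ 2 = ρ ^ 2 := by
      have := sin_sq_add_cos_sq θ'
      nlinarith [this]
    rw [← ha, ← hb, h1, h2]
  have e2 : r = ρ := by
    have := (sq_eq_sq₀ hr.le hρ).1 e1
    exact this
  subst e2
  exact ⟨rfl, mul_left_cancel₀ hr.ne' h1, mul_left_cancel₀ hr.ne' h2⟩

theorem angle_eq {x y : ℝ} (hx0 : 0 ≤ x) (hx : x < 2 * π) (hy0 : 0 ≤ y) (hy : y < 2 * π)
    (hc : cos x = cos y) (hs : sin x = sin y) : x = y := by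
  have h : cos (x - y) = 1 := by
    rw [cos_sub, hc, hs]
    have := sin_sq_add_cos_sq y
    nlinarith [this]
  have := (cos_eq_one_iff_of_lt_of_lt (by linarith) (by linarith)).1 h
  linarith

theorem pt_congr {r θ θ' : ℝ} (hc : cos θ = cos θ') (hs : sin θ = sin θ') : pt r θ = pt r θ' := by
  unfold pt
  rw [hc, hs]

variable {n : ℕ}

open Classical in
/-- The long arcs. -/
noncomputable def Lset (F : ArcFamily n) : Finset (Fin n) := Finset.univ.filter fun c => π ≤ F.β c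

/-- The event angle. -/
noncomputable def ekey (F : ArcFamily n) (c : Fin n) : ℝ :=
  if π ≤ F.β c then F.β c - π else F.β c

theorem inA_iff {F : ArcFamily n} {φ : ℝ} (h : φ < π) (c : Fin n) :
    inA (Lset F) (ekey F) φ c ↔ φ ≤ F.β c := by
  unfold inA Lset ekey
  by_cases hc : π ≤ F.β c
  · simp only [Finset.mem_filter, Finset.mem_univ, true_and, hc, true_or, true_iff]
    linarith
  · simp [hc]

theorem inB_iff {F : ArcFamily n} {φ : ℝ} (h : 0 ≤ φ) (c : Fin n) :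
    inB (Lset F) (ekey F) φ c ↔ φ + π ≤ F.β c := by
  unfold inB Lset ekey
  by_cases hc : π ≤ F.β c
  · simp only [Finset.mem_filter, Finset.mem_univ, true_and, hc, if_true]
    constructor
    · intro h; linarith
    · intro h; linarith
  · simp only [Finset.mem_filter, Finset.mem_univ, true_and, hc, false_and, false_iff, not_le]
    push Not at hc
    linarith

theorem r_injective (F : ArcFamily n) (hα : ∀ i, F.α i = 0) : Function.Injective F.r := by
  intro i j h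
  by_contra hne
  have := Set.disjoint_left.1 (F.disj hne)
  have hp : ∀ c : Fin n, pt (F.r c) 0 ∈ arc (F.r c) (F.α c) (F.β c) := by
    intro c
    refine ⟨0, by rw [hα], ?_, rfl⟩
    have := F.le_β c
    rw [hα] at this
    exact this
  have h1 := hp i
  have h2 := hp j
  rw [← h] at h2
  have h3 := this h1
  rw [← h] at h3
  exact h3 h2

/-- the angle of a point of a circular side -/
theorem exists_angle {F : ArcFamily n} (hα : ∀ i, F.α i = 0) {i : Fin n} {ρ a b : ℝ}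
    (hρ : 0 < ρ) (hab : a < b) (h : arc ρ a b ⊆ F.carrier i) :
    ρ = F.r i ∧ ∃ θ, 0 ≤ θ ∧ θ ≤ F.β i ∧ cos a = cos θ ∧ sin a = sin θ := by
  obtain ⟨θ, h1, h2, h3⟩ := h ⟨a, le_refl _, hab.le, rfl⟩
  obtain ⟨e1, e2, e3⟩ := pt_inj hρ (F.r_pos i).le h3
  rw [hα] at h1
  exact ⟨e1, θ, h1, h2, e2, e3⟩

theorem β_lt' {F : ArcFamily n} (hα : ∀ i, F.α i = 0) (i : Fin n) : F.β i < 2 * π := by
  have := F.β_lt i
  rw [hα] at this
  linarith

theorem mem_carrier {F : ArcFamily n} (hα : ∀ i, F.α i = 0) {c : Fin n} {θ : ℝ} (h0 : 0 ≤ θ)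
    (h : θ ≤ F.β c) : pt (F.r c) θ ∈ F.carrier c :=
  ⟨θ, by rw [hα]; exact h0, h, rfl⟩

theorem cross_core {F : ArcFamily n} (hα : ∀ i, F.α i = 0) {k : ℕ} {i j : Fin n} (hne : i ≠ j)
    {φ : ℝ} (h0 : 0 ≤ φ) (h1 : φ < π) (hi : φ ≤ F.β i) (hj : φ + π ≤ F.β j)
    (S : Finset (Fin n))
    (hS : ∀ c, c ≠ i → c ≠ j → ((φ ≤ F.β c ∧ F.r c < F.r i) ∨ (φ + π ≤ F.β c ∧ F.r c < F.r j)) →
      c ∈ S) (hk : S.card ≤ k) :
    j ∈ Nset (k + 1) (Lset F) (ekey F) F.r i ∨ i ∈ Nset (k + 1) (Lset F) (ekey F) F.r j := by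
  rcases lt_or_gt_of_ne (fun h => hne (r_injective F hα h)) with hr | hr
  · refine cover_X hne hr ((inA_iff h1 i).2 hi) ((inB_iff h0 j).2 hj) S ?_ hk
    intro c hci hcj hc
    rw [inA_iff h1, inB_iff h0] at hc
    exact hS c hci hcj hc
  · refine Or.symm (cover_A hne.symm hr ((inA_iff h1 j).2 (by linarith [pi_pos]))
      ((inA_iff h1 i).2 hi) S ?_ hk)
    intro c hc h2 h3
    rw [inA_iff h1] at hc
    exact hS c (fun h => (ne_of_lt h3) (by rw [h])) (fun h => (ne_of_gt h2) (by rw [h]))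
      (Or.inl ⟨hc, h3⟩)

theorem visible_core {F : ArcFamily n} (hα : ∀ i, F.α i = 0) {k : ℕ} {i j : Fin n} (hne : i ≠ j)
    {C e₁ e₂ : Set (ℝ × ℝ)} (hC : IsCone C e₁ e₂) (h1 : e₁ ⊆ F.carrier i) (h2 : e₂ ⊆ F.carrier j)
    (S : Finset (Fin n)) (hS : ∀ c, c ≠ i → c ≠ j → (C ∩ F.carrier c).Nonempty → c ∈ S)
    (hk : S.card ≤ k) :
    j ∈ Nset (k + 1) (Lset F) (ekey F) F.r i ∨ i ∈ Nset (k + 1) (Lset F) (ekey F) F.r j := by
  cases hC with
  | straight r₁ r₂ a b hr1 hr12 hab hb =>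
    obtain ⟨ei, θ, ht0, htb, hc, hs⟩ := exists_angle hα hr1 hab h1
    obtain ⟨ej, θ', ht0', htb', hc', hs'⟩ := exists_angle hα (hr1.trans hr12) hab h2
    have hθ : θ' = θ := angle_eq ht0' (lt_of_le_of_lt htb' (β_lt' hα j)) ht0
      (lt_of_le_of_lt htb (β_lt' hα i)) (hc'.symm.trans hc) (hs'.symm.trans hs)
    subst hθ
    have hr : F.r i < F.r j := by rw [← ei, ← ej]; exact hr12
    have hin : ∀ c, θ' ≤ F.β c → F.r i < F.r c → F.r c < F.r j → c ∈ S := by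
      intro c hcb h3 h4
      refine hS c (fun h => (ne_of_gt h3) (by rw [h])) (fun h => (ne_of_lt h4) (by rw [h]))
        ⟨pt (F.r c) θ', ⟨F.r c, a, ?_, ?_, le_refl _, hab.le, pt_congr hc.symm hs.symm⟩,
          mem_carrier hα ht0 hcb⟩
      · rw [ei]; exact h3.le
      · rw [ej]; exact h4.le
    by_cases hπ : θ' < π
    · refine cover_A hne hr ((inA_iff hπ i).2 htb) ((inA_iff hπ j).2 htb') S ?_ hk
      intro c hcA
      rw [inA_iff hπ] at hcA
      exact hin c hcA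
    · push Not at hπ
      refine cover_B (φ := θ' - π) hne hr ((inB_iff (by linarith) i).2 (by linarith))
        ((inB_iff (by linarith) j).2 (by linarith)) S ?_ hk
      intro c hcB
      rw [inB_iff (by linarith)] at hcB
      exact hin c (by linarith)
  | crossed r₁ r₂ a b hr1 hr2 hab hb =>
    obtain ⟨ei, θ, ht0, htb, hc, hs⟩ := exists_angle hα hr1 hab h1
    obtain ⟨ej, θ', ht0', htb', hc', hs'⟩ := exists_angle hα hr2 (by linarith) h2
    rw [cos_add_pi] at hc'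
    rw [sin_add_pi] at hs'
    have hθ2 := lt_of_le_of_lt htb (β_lt' hα i)
    have hθ2' := lt_of_le_of_lt htb' (β_lt' hα j)
    -- arcs containing the ray at angle `θ` below `i`, or at angle `θ'` below `j`
    have hin : ∀ c, c ≠ i → c ≠ j → ((θ ≤ F.β c ∧ F.r c < F.r i) ∨
        (θ' ≤ F.β c ∧ F.r c < F.r j)) → c ∈ S := by
      intro c hci hcj hcc
      rcases hcc with ⟨h3, h4⟩ | ⟨h3, h4⟩
      · refine hS c hci hcj ⟨pt (F.r c) θ, Or.inl ⟨F.r c, a, (F.r_pos c).le, ?_, le_refl _, hab.le,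
          pt_congr hc.symm hs.symm⟩, mem_carrier hα ht0 h3⟩
        rw [ei]; exact h4.le
      · refine hS c hci hcj ⟨pt (F.r c) θ', Or.inr ⟨F.r c, a + π, (F.r_pos c).le, ?_, le_refl _,
          by linarith, pt_congr ?_ ?_⟩, mem_carrier hα ht0' h3⟩
        · rw [ej]; exact h4.le
        · rw [cos_add_pi]; exact hc'.symm
        · rw [sin_add_pi]; exact hs'.symm
    by_cases hπ : θ < π
    · have hθ : θ' = θ + π := angle_eq ht0' hθ2' (by linarith [pi_pos]) (by linarith)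
        (by rw [cos_add_pi]; linarith) (by rw [sin_add_pi]; linarith)
      subst hθ
      exact cross_core hα hne ht0 hπ htb htb' S hin hk
    · push Not at hπ
      have hθ : θ' = θ - π := angle_eq ht0' hθ2' (by linarith [pi_pos]) (by linarith)
        (by rw [cos_sub_pi]; linarith) (by rw [sin_sub_pi]; linarith)
      subst hθ
      refine Or.symm (cross_core hα hne.symm ht0' (by linarith) htb' (by linarith) S ?_ hk)
      intro c hcj hci hcc
      refine hin c hci hcj ?_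
      rcases hcc with ⟨h3, h4⟩ | ⟨h3, h4⟩
      · exact Or.inr ⟨h3, h4⟩
      · exact Or.inl ⟨by linarith, h4⟩

theorem visible_cover {F : ArcFamily n} (hα : ∀ i, F.α i = 0) {k : ℕ} {i j : Fin n} (hne : i ≠ j)
    (hv : F.Visible k i j) :
    j ∈ Nset (k + 1) (Lset F) (ekey F) F.r i ∨ i ∈ Nset (k + 1) (Lset F) (ekey F) F.r j := by
  classical
  obtain ⟨C, e₁, e₂, hC, he, hk⟩ := hv
  have hcard : (Finset.univ.filter fun c => c ≠ i ∧ c ≠ j ∧ (C ∩ F.carrier c).Nonempty).card ≤ k := by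
    rw [← Set.ncard_coe_finset]
    simpa using hk
  have hS : ∀ c, c ≠ i → c ≠ j → (C ∩ F.carrier c).Nonempty →
      c ∈ (Finset.univ.filter fun c => c ≠ i ∧ c ≠ j ∧ (C ∩ F.carrier c).Nonempty) := by
    intro c h1 h2 h3
    simp only [Finset.mem_filter, Finset.mem_univ, true_and]
    exact ⟨h1, h2, h3⟩
  rcases he with ⟨h1, h2⟩ | ⟨h1, h2⟩
  · exact visible_core hα hne hC h1 h2 _ hS hcard
  · exact Or.symm (visible_core hα hne.symm hC h1 h2 _ (fun c a b d => hS c b a d) hcard)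

/-- **Upper bound.** -/
theorem edges_le_of_isSemiArcGraph {k : ℕ} {G : SimpleGraph (Fin n)} (hG : IsSemiArcGraph k G) :
    G.edgeSet.ncard ≤ ∑ i ∈ Finset.range n, (min (k + 1) i + (k + 1)) := by
  obtain ⟨F, hα, hadj⟩ := hG
  refine edges_le (L := Lset F) (key := ekey F) (r_injective F hα) G ?_
  intro u w h
  exact visible_cover hα h.ne ((hadj u w h.ne).1 h)

/-! ### visibility of explicit pairs -/

theorem mem_inter_sector {F : ArcFamily n} (hα : ∀ i, F.α i = 0) {c : Fin n} {r₁ r₂ a b : ℝ}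
    (hr1 : 0 ≤ r₁) (ha : 0 ≤ a) (hb : b < 2 * π)
    (h : (sector r₁ r₂ a b ∩ F.carrier c).Nonempty) :
    r₁ ≤ F.r c ∧ F.r c ≤ r₂ ∧ a ≤ F.β c := by
  obtain ⟨p, ⟨ρ, θ, h1, h2, h3, h4, h5⟩, ⟨θ', h6, h7, h8⟩⟩ := h
  rw [h5] at h8
  obtain ⟨e1, e2, e3⟩ := pt_inj (F.r_pos c) (hr1.trans h1) h8.symm
  rw [hα] at h6
  have : θ' = θ := angle_eq h6 (lt_of_le_of_lt h7 (β_lt' hα c)) (ha.trans h3)
    (lt_of_le_of_lt h4 hb) e2 e3
  rw [e1]
  exact ⟨h1, h2, by linarith⟩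

theorem arc_subset {F : ArcFamily n} (hα : ∀ i, F.α i = 0) {c : Fin n} {a b : ℝ} (ha : 0 ≤ a)
    (hb : b ≤ F.β c) : arc (F.r c) a b ⊆ F.carrier c := by
  rintro p ⟨θ, h1, h2, rfl⟩
  exact mem_carrier hα (ha.trans h1) (h2.trans hb)

theorem vis_straight {F : ArcFamily n} (hα : ∀ i, F.α i = 0) {k : ℕ} {i j : Fin n}
    (hr : F.r i < F.r j) {a b : ℝ} (ha : 0 ≤ a) (hab : a < b) (hb : b < 2 * π)
    (hi : b ≤ F.β i) (hj : b ≤ F.β j) (S : Finset (Fin n))
    (hS : ∀ c, c ≠ i → c ≠ j → a ≤ F.β c → F.r i ≤ F.r c → F.r c ≤ F.r j → c ∈ S)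
    (hk : S.card ≤ k) : F.Visible k i j := by
  refine ⟨_, _, _, IsCone.straight (F.r i) (F.r j) a b (F.r_pos i) hr hab (by linarith),
    Or.inl ⟨arc_subset hα ha hi, arc_subset hα ha hj⟩, ?_⟩
  refine le_trans ?_ hk
  rw [← Set.ncard_coe_finset]
  refine Set.ncard_le_ncard ?_ (Finset.finite_toSet _)
  rintro c ⟨h1, h2, h3⟩
  obtain ⟨h4, h5, h6⟩ := mem_inter_sector hα (F.r_pos i).le ha hb h3
  exact hS c h1 h2 h6 h4 h5

theorem vis_crossed {F : ArcFamily n} (hα : ∀ i, F.α i = 0) {k : ℕ} {i j : Fin n}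
    {a b : ℝ} (ha : 0 ≤ a) (hab : a < b) (hb : b < π)
    (hi : b ≤ F.β i) (hj : b + π ≤ F.β j) (S : Finset (Fin n))
    (hS : ∀ c, c ≠ i → c ≠ j → ((a ≤ F.β c ∧ F.r c ≤ F.r i) ∨ (a + π ≤ F.β c ∧ F.r c ≤ F.r j)) →
      c ∈ S)
    (hk : S.card ≤ k) : F.Visible k i j := by
  refine ⟨_, _, _, IsCone.crossed (F.r i) (F.r j) a b (F.r_pos i) (F.r_pos j) hab (by linarith),
    Or.inl ⟨arc_subset hα ha hi, arc_subset hα (by linarith [pi_pos]) hj⟩, ?_⟩
  refine le_trans ?_ hk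
  rw [← Set.ncard_coe_finset]
  refine Set.ncard_le_ncard ?_ (Finset.finite_toSet _)
  rintro c ⟨h1, h2, h3⟩
  rw [Set.union_inter_distrib_right, Set.union_nonempty] at h3
  refine hS c h1 h2 ?_
  rcases h3 with h3 | h3
  · obtain ⟨-, h5, h6⟩ := mem_inter_sector hα le_rfl ha (by linarith [pi_pos]) h3
    exact Or.inl ⟨h6, h5⟩
  · obtain ⟨-, h5, h6⟩ := mem_inter_sector hα le_rfl (by linarith [pi_pos]) (by linarith) h3
    exact Or.inr ⟨h6, h5⟩

end Pool.Agent.R32.SA
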