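import Pool.Agent.R32.SA.Geo

/-!
# Semi-arc `k`-visibility graphs: the construction
-/

namespace Pool.Agent.R32.SA

open Real

/-! ### the graph of a family -/

theorem IsCone.swap_visible {n : ℕ} {F : ArcFamily n} {k : ℕ} {i j : Fin n}
    (h : F.Visible k i j) : F.Visible k j i := by
  obtain ⟨C, e₁, e₂, hC, he, hk⟩ := h
  refine ⟨C, e₁, e₂, hC, he.symm, ?_⟩
  have : {c | c ≠ j ∧ c ≠ i ∧ (C ∩ F.carrier c).Nonempty} =
      {c | c ≠ i ∧ c ≠ j ∧ (C ∩ F.carrier c).Nonempty} := by
    ext c
    simp only [Set.mem_setOf_eq]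
    tauto
  rw [this]
  exact hk

/-- The `k`-visibility graph of a family. -/
def visGraph {n : ℕ} (F : ArcFamily n) (k : ℕ) : SimpleGraph (Fin n) where
  Adj i j := i ≠ j ∧ F.Visible k i j
  symm := ⟨fun _ _ h => ⟨h.1.symm, IsCone.swap_visible h.2⟩⟩
  loopless := ⟨fun _ h => h.1 rfl⟩

theorem isSemiArcGraph_visGraph {n : ℕ} (F : ArcFamily n) (hα : ∀ i, F.α i = 0) (k : ℕ) :
    IsSemiArcGraph k (visGraph F k) :=
  ⟨F, hα, fun _ _ hne => ⟨fun h => h.2, fun h => ⟨hne, h⟩⟩⟩

/-! ### the family -/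

/-- The position of the event of arc `c`. -/
def tpos (s a c : ℕ) : ℕ := if c < s then a + c + 1 else if c < s + a then c - s + 1 else c + 1

/-- The angular unit. -/
noncomputable def unit (n : ℕ) : ℝ := π / (n + 1)

theorem unit_pos (n : ℕ) : 0 < unit n := by
  unfold unit
  positivity

theorem unit_mul (n : ℕ) : ((n : ℝ) + 1) * unit n = π := by
  unfold unit
  field_simp

/-- The positive endpoint of arc `c`. -/
noncomputable def bend (s a n c : ℕ) : ℝ :=
  if c < s then (tpos s a c : ℝ) * unit n else π + (tpos s a c : ℝ) * unit n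

theorem tpos_pos (s a c : ℕ) : 1 ≤ tpos s a c := by
  unfold tpos
  split_ifs <;> omega

theorem tpos_le {s a K c : ℕ} (h : c < s + a + K) : tpos s a c ≤ s + a + K := by
  unfold tpos
  split_ifs <;> omega

theorem tmul_lt {s a K c : ℕ} (h : c < s + a + K) :
    (tpos s a c : ℝ) * unit (s + a + K) < π := by
  rw [← unit_mul (s + a + K)]
  apply mul_lt_mul_of_pos_right _ (unit_pos _)
  have : (tpos s a c : ℝ) ≤ ((s + a + K : ℕ) : ℝ) := by exact_mod_cast tpos_le h
  linarith

theorem tmul_nonneg (s a n c : ℕ) : 0 ≤ (tpos s a c : ℝ) * unit n :=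
  mul_nonneg (Nat.cast_nonneg _) (unit_pos _).le

theorem bend_nonneg (s a n c : ℕ) : 0 ≤ bend s a n c := by
  unfold bend
  have := tmul_nonneg s a n c
  split_ifs
  · exact this
  · have := pi_pos
    linarith

theorem bend_lt {s a K c : ℕ} (h : c < s + a + K) : bend s a (s + a + K) c < 2 * π := by
  unfold bend
  have := tmul_lt h
  have := pi_pos
  split_ifs <;> linarith

/-- The family of arcs with radii `1, 2, …, n`, `n = s + a + K`; the first `s` arcs are short. -/
noncomputable def fam (s a K : ℕ) : ArcFamily (s + a + K) where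
  r c := (c : ℕ) + 1
  α _ := 0
  β c := bend s a (s + a + K) c
  r_pos c := by positivity
  α_nonneg _ := le_rfl
  α_lt _ := by have := pi_pos; linarith
  le_β c := bend_nonneg _ _ _ _
  β_lt c := by
    have := bend_lt c.2
    linarith
  disj := by
    intro i j hne
    rw [Set.disjoint_left]
    rintro p ⟨θ, -, -, h1⟩ ⟨θ', -, -, h2⟩
    rw [h1] at h2
    obtain ⟨h3, -⟩ := pt_inj (by positivity) (by positivity) h2
    apply hne
    have : ((i : ℕ) : ℝ) = ((j : ℕ) : ℝ) := by linarith
    exact Fin.ext (by exact_mod_cast this)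

theorem fam_α (s a K : ℕ) : ∀ i, (fam s a K).α i = 0 := fun _ => rfl

theorem fam_r (s a K : ℕ) (i : Fin (s + a + K)) : (fam s a K).r i = (i : ℕ) + 1 := rfl

theorem fam_β (s a K : ℕ) (i : Fin (s + a + K)) :
    (fam s a K).β i = bend s a (s + a + K) i := rfl

/-- present on side `A` at time `m` -/
def PA (s a m c : ℕ) : Prop := s ≤ c ∨ m + 1 ≤ tpos s a c

/-- present on side `B` at time `m` -/
def PB (s a m c : ℕ) : Prop := s ≤ c ∧ m + 1 ≤ tpos s a c

section state

variable {s a K m c : ℕ}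

theorem hi_lt_pi (hm : m ≤ s + a + K) : ((m : ℝ) + 3 / 4) * unit (s + a + K) < π := by
  rw [← unit_mul (s + a + K)]
  apply mul_lt_mul_of_pos_right _ (unit_pos _)
  have : (m : ℝ) ≤ ((s + a + K : ℕ) : ℝ) := by exact_mod_cast hm
  linarith

theorem le_bend_of_PA (hm : m ≤ s + a + K) (h : PA s a m c) :
    ((m : ℝ) + 3 / 4) * unit (s + a + K) ≤ bend s a (s + a + K) c := by
  unfold bend
  split_ifs with hc
  · rcases h with h | h
    · omega
    · apply mul_le_mul_of_nonneg_right _ (unit_pos _).le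
      have : (m : ℝ) + 1 ≤ (tpos s a c : ℝ) := by exact_mod_cast h
      linarith
  · have h1 := hi_lt_pi hm
    have := tmul_nonneg s a (s + a + K) c
    linarith

theorem le_bend_of_PB (h : PB s a m c) :
    ((m : ℝ) + 3 / 4) * unit (s + a + K) + π ≤ bend s a (s + a + K) c := by
  unfold bend
  rw [if_neg (not_lt.2 h.1)]
  have h2 : ((m : ℝ) + 3 / 4) * unit (s + a + K) ≤ (tpos s a c : ℝ) * unit (s + a + K) := by
    apply mul_le_mul_of_nonneg_right _ (unit_pos _).le
    have : (m : ℝ) + 1 ≤ (tpos s a c : ℝ) := by exact_mod_cast h.2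
    linarith
  linarith

theorem PA_of_le_bend (h : ((m : ℝ) + 1 / 4) * unit (s + a + K) ≤ bend s a (s + a + K) c) :
    PA s a m c := by
  unfold bend at h
  split_ifs at h with hc
  · right
    have h1 := le_of_mul_le_mul_right h (unit_pos _)
    have h2 : (m : ℝ) < (tpos s a c : ℝ) := by linarith
    have h3 : m < tpos s a c := by exact_mod_cast h2
    omega
  · left
    omega

theorem PB_of_le_bend (hc : c < s + a + K)
    (h : ((m : ℝ) + 1 / 4) * unit (s + a + K) + π ≤ bend s a (s + a + K) c) :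
    PB s a m c := by
  have hm0 : 0 ≤ ((m : ℝ) + 1 / 4) * unit (s + a + K) :=
    mul_nonneg (by positivity) (unit_pos _).le
  unfold bend at h
  split_ifs at h with hcs
  · have := tmul_lt hc
    linarith
  · have h0 : ((m : ℝ) + 1 / 4) * unit (s + a + K) ≤ (tpos s a c : ℝ) * unit (s + a + K) := by
      linarith
    have h1 := le_of_mul_le_mul_right h0 (unit_pos _)
    have h2 : (m : ℝ) < (tpos s a c : ℝ) := by linarith
    have h3 : m < tpos s a c := by exact_mod_cast h2
    exact ⟨by omega, by omega⟩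

end state

theorem lo_nonneg (m n : ℕ) : 0 ≤ ((m : ℝ) + 1 / 4) * unit n :=
  mul_nonneg (by positivity) (unit_pos _).le

theorem lo_lt_hi (m n : ℕ) : ((m : ℝ) + 1 / 4) * unit n < ((m : ℝ) + 3 / 4) * unit n :=
  mul_lt_mul_of_pos_right (by linarith) (unit_pos _)

theorem vis_near {s a K k : ℕ} {i j : Fin (s + a + K)} (hij : i < j)
    (hd : (j : ℕ) ≤ i + (k + 1)) : (fam s a K).Visible k i j := by
  have hP : ∀ c, PA s a 0 c := fun c => Or.inr (by have := tpos_pos s a c; omega)
  refine vis_straight (fam_α s a K) (a := ((0 : ℕ) + 1 / 4 : ℝ) * unit (s + a + K))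
    (b := ((0 : ℕ) + 3 / 4 : ℝ) * unit (s + a + K)) ?_ (lo_nonneg 0 _) (lo_lt_hi 0 _) ?_
    (le_bend_of_PA (Nat.zero_le _) (hP _)) (le_bend_of_PA (Nat.zero_le _) (hP _))
    (Finset.Ioo i j) ?_ ?_
  · rw [fam_r, fam_r]
    have : ((i : ℕ) : ℝ) < ((j : ℕ) : ℝ) := by exact_mod_cast hij
    linarith
  · have := hi_lt_pi (s := s) (a := a) (K := K) (Nat.zero_le (s + a + K))
    have := pi_pos
    linarith
  · intro c hci hcj _ h1 h2
    rw [fam_r, fam_r] at h1 h2
    have h1' : (i : ℕ) ≤ (c : ℕ) := by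
      have : ((i : ℕ) : ℝ) ≤ ((c : ℕ) : ℝ) := by linarith
      exact_mod_cast this
    have h2' : (c : ℕ) ≤ (j : ℕ) := by
      have : ((c : ℕ) : ℝ) ≤ ((j : ℕ) : ℝ) := by linarith
      exact_mod_cast this
    rw [Finset.mem_Ioo]
    exact ⟨lt_of_le_of_ne h1' (fun h => hci h.symm), lt_of_le_of_ne h2' hcj⟩
  · rw [Fin.card_Ioo]
    omega

theorem vis_far {s a K k m : ℕ} {i j : Fin (s + a + K)} (hm : m ≤ s + a + K)
    (hi : PA s a m i) (hj : PB s a m j) (S : Finset (Fin (s + a + K)))
    (hS : ∀ c : Fin (s + a + K), c ≠ i → c ≠ j →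
      ((PA s a m c ∧ (c : ℕ) ≤ i) ∨ (PB s a m c ∧ (c : ℕ) ≤ j)) → c ∈ S)
    (hk : S.card ≤ k) : (fam s a K).Visible k i j := by
  refine vis_crossed (fam_α s a K) (a := ((m : ℕ) + 1 / 4 : ℝ) * unit (s + a + K))
    (b := ((m : ℕ) + 3 / 4 : ℝ) * unit (s + a + K)) (lo_nonneg m _) (lo_lt_hi m _) (hi_lt_pi hm)
    (le_bend_of_PA hm hi) (le_bend_of_PB hj) S ?_ hk
  intro c hci hcj hc
  refine hS c hci hcj ?_
  rw [fam_r, fam_r, fam_r, fam_β] at hc
  rcases hc with ⟨h1, h2⟩ | ⟨h1, h2⟩
  · left
    refine ⟨PA_of_le_bend h1, ?_⟩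
    have : ((c : ℕ) : ℝ) ≤ ((i : ℕ) : ℝ) := by linarith
    exact_mod_cast this
  · right
    refine ⟨PB_of_le_bend c.2 h1, ?_⟩
    have : ((c : ℕ) : ℝ) ≤ ((j : ℕ) : ℝ) := by linarith
    exact_mod_cast this

/-- short arc among the first `k + 1`, long arc of the first group -/
theorem vis_c2 {s a K k : ℕ} {i j : Fin (s + a + K)} (h1 : (i : ℕ) ≤ k) (h2 : (i : ℕ) < s)
    (h3 : s ≤ (j : ℕ)) (h4 : (j : ℕ) < s + a) : (fam s a K).Visible k i j := by
  refine vis_far (m := j - s) (by omega) ?_ ?_ (Finset.Iio i) ?_ ?_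
  · right
    unfold tpos
    rw [if_pos h2]
    omega
  · refine ⟨h3, ?_⟩
    unfold tpos
    rw [if_neg (by omega), if_pos h4]
  · intro c hci hcj hc
    rw [Finset.mem_Iio]
    have hci' : (c : ℕ) ≠ i := fun h => hci (Fin.ext h)
    have hcj' : (c : ℕ) ≠ j := fun h => hcj (Fin.ext h)
    rcases hc with ⟨-, h⟩ | ⟨⟨h5, h6⟩, h⟩
    · exact lt_of_le_of_ne h hci
    · exfalso
      unfold tpos at h6
      rw [if_neg (by omega), if_pos (by omega)] at h6
      omega
  · rw [Fin.card_Iio]
    exact h1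

/-- short arc, long arc of the last group -/
theorem vis_c3 {s a K k : ℕ} (hK : K = k + 1) {i j : Fin (s + a + K)} (h2 : (i : ℕ) < s)
    (h3 : s + a ≤ (j : ℕ)) : (fam s a K).Visible k i j := by
  have hj := j.2
  have hsa : s + a < s + a + K := by omega
  refine vis_far (m := a + i) (by omega) ?_ ?_ (Finset.Ico (⟨s + a, hsa⟩ : Fin (s + a + K)) j) ?_ ?_
  · right
    unfold tpos
    rw [if_pos h2]
  · refine ⟨by omega, ?_⟩
    unfold tpos
    rw [if_neg (by omega), if_neg (by omega)]
    omega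
  · intro c hci hcj hc
    have hci' : (c : ℕ) ≠ i := fun h => hci (Fin.ext h)
    have hcj' : (c : ℕ) ≠ j := fun h => hcj (Fin.ext h)
    rw [Finset.mem_Ico]
    rcases hc with ⟨h5, h⟩ | ⟨⟨h5, h6⟩, h⟩
    · exfalso
      rcases h5 with h5 | h5
      · omega
      · unfold tpos at h5
        rw [if_pos (by omega)] at h5
        omega
    · have h7 : s + a ≤ (c : ℕ) := by
        by_contra hlt
        unfold tpos at h6
        rw [if_neg (by omega), if_pos (by omega)] at h6
        omega
      exact ⟨h7, lt_of_le_of_ne h hcj⟩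
  · rw [Fin.card_Ico]
    simp only
    omega

/-- low long arc, long arc of the last group -/
theorem vis_c4 {s a K k : ℕ} {i j : Fin (s + a + K)} (h1 : s ≤ (i : ℕ)) (h2 : (i : ℕ) ≤ s + k)
    (h5 : (i : ℕ) < s + a) (h3 : s + a ≤ (j : ℕ)) : (fam s a K).Visible k i j := by
  have hj := j.2
  have hs : s < s + a + K := by omega
  refine vis_far (m := j) (by omega) (Or.inl h1) ?_ (Finset.Ico (⟨s, hs⟩ : Fin (s + a + K)) i) ?_ ?_
  · refine ⟨by omega, ?_⟩
    unfold tpos
    rw [if_neg (by omega), if_neg (by omega)]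
  · intro c hci hcj hc
    have hci' : (c : ℕ) ≠ i := fun h => hci (Fin.ext h)
    have hcj' : (c : ℕ) ≠ j := fun h => hcj (Fin.ext h)
    rw [Finset.mem_Ico]
    rcases hc with ⟨h5, h⟩ | ⟨⟨h5, h6⟩, h⟩
    · rcases h5 with h5 | h5
      · exact ⟨h5, lt_of_le_of_ne h hci⟩
      · exfalso
        unfold tpos at h5
        split_ifs at h5 <;> omega
    · exfalso
      unfold tpos at h6
      split_ifs at h6 <;> omega
  · rw [Fin.card_Ico]
    simp only
    omega

/-! ### counting the edges -/

theorem sum_card_le {n : ℕ} (G : SimpleGraph (Fin n)) (J : Fin n → Finset (Fin n))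
    (hJ : ∀ i, ∀ j ∈ J i, i < j ∧ G.Adj i j) : ∑ i, (J i).card ≤ G.edgeSet.ncard := by
  classical
  rw [← Finset.card_sigma]
  have h1 : (((Finset.univ : Finset (Fin n)).sigma J).image fun p => s(p.1, p.2)).card =
      ((Finset.univ : Finset (Fin n)).sigma J).card := by
    apply Finset.card_image_of_injOn
    rintro ⟨i, j⟩ h ⟨i', j'⟩ h' heq
    simp only [Finset.coe_sigma, Set.mem_sigma_iff, Finset.mem_coe, Finset.mem_univ,
      true_and] at h h'
    have hi := (hJ i j h).1
    have hi' := (hJ i' j' h').1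
    rcases Sym2.eq_iff.1 heq with ⟨h3, h4⟩ | ⟨h3, h4⟩
    · simp only at h3 h4
      subst h3; subst h4; rfl
    · simp only at h3 h4
      subst h3; subst h4
      exact absurd hi (not_lt.2 hi'.le)
  rw [← h1, ← Set.ncard_coe_finset]
  apply Set.ncard_le_ncard _ (Set.toFinite _)
  intro x hx
  simp only [Finset.coe_image, Set.mem_image, Finset.mem_coe, Finset.mem_sigma, Finset.mem_univ,
    true_and] at hx
  obtain ⟨p, hp, rfl⟩ := hx
  exact (hJ p.1 p.2 hp).2

/-- the guaranteed number of neighbours above -/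
def gnum (s a K i : ℕ) : ℕ :=
  if i < K then K + K + (a - (i + K + 1 - s))
  else if i < s then K + K
  else if i < s + K then K + (K - (i - s + K + 1 - a))
  else if i < s + a then K
  else s + a + K - 1 - i

theorem card_ge_of_subset {n : ℕ} (P : Fin n → Prop) [DecidablePred P] (U : Finset ℕ)
    (hU : ∀ u ∈ U, ∃ h : u < n, P ⟨u, h⟩) : U.card ≤ (Finset.univ.filter P).card := by
  apply Finset.card_le_card_of_surjOn (fun j : Fin n => (j : ℕ))
  intro u hu
  obtain ⟨h, hP⟩ := hU u hu
  exact ⟨⟨u, h⟩, by simpa using hP, rfl⟩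

theorem gnum_le {s a k : ℕ} (hs : k + 1 ≤ s) (ha : k + 1 ≤ a) (i : Fin (s + a + (k + 1)))
    [DecidablePred fun j => i < j ∧ (visGraph (fam s a (k + 1)) k).Adj i j] :
    gnum s a (k + 1) i ≤
      (Finset.univ.filter fun j => i < j ∧ (visGraph (fam s a (k + 1)) k).Adj i j).card := by
  have hi := i.2
  have hnear : ∀ u : ℕ, (i : ℕ) < u → u ≤ i + (k + 1) → ∀ h : u < s + a + (k + 1),
      i < (⟨u, h⟩ : Fin (s + a + (k + 1))) ∧
        (visGraph (fam s a (k + 1)) k).Adj i ⟨u, h⟩ := by
    intro u h1 h2 h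
    have hlt : i < (⟨u, h⟩ : Fin (s + a + (k + 1))) := h1
    exact ⟨hlt, hlt.ne, vis_near hlt h2⟩
  have hfar : ∀ u : ℕ, (i : ℕ) < u → ∀ h : u < s + a + (k + 1),
      (fam s a (k + 1)).Visible k i ⟨u, h⟩ → i < (⟨u, h⟩ : Fin (s + a + (k + 1))) ∧
        (visGraph (fam s a (k + 1)) k).Adj i ⟨u, h⟩ := by
    intro u h1 h hv
    have hlt : i < (⟨u, h⟩ : Fin (s + a + (k + 1))) := h1
    exact ⟨hlt, hlt.ne, hv⟩
  unfold gnum
  split_ifs with h1 h2 h3 h4
  · -- `i < K`
    have hc : k + 1 + (k + 1) + (a - ((i : ℕ) + (k + 1) + 1 - s)) =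
        (Finset.Ico ((i : ℕ) + 1) (i + (k + 1) + 1) ∪
          Finset.Ico (max s (i + (k + 1) + 1)) (s + a + (k + 1))).card := by
      rw [Finset.card_union_of_disjoint, Nat.card_Ico, Nat.card_Ico]
      · omega
      · rw [Finset.disjoint_left]
        intro u hu hu'
        rw [Finset.mem_Ico] at hu hu'
        omega
    rw [hc]
    apply card_ge_of_subset
    intro u hu
    rw [Finset.mem_union, Finset.mem_Ico, Finset.mem_Ico] at hu
    rcases hu with hu | hu
    · exact ⟨by omega, hnear u (by omega) (by omega) _⟩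
    · refine ⟨by omega, hfar u (by omega) _ ?_⟩
      by_cases hua : u < s + a
      · exact vis_c2 (by omega) (by omega) (by simp only; omega) hua
      · exact vis_c3 rfl (by omega) (by simp only; omega)
  · -- `K ≤ i < s`
    have hc : k + 1 + (k + 1) =
        (Finset.Ico ((i : ℕ) + 1) (i + (k + 1) + 1) ∪
          Finset.Ico (s + a) (s + a + (k + 1))).card := by
      rw [Finset.card_union_of_disjoint, Nat.card_Ico, Nat.card_Ico]
      · omega
      · rw [Finset.disjoint_left]
        intro u hu hu'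
        rw [Finset.mem_Ico] at hu hu'
        omega
    rw [hc]
    apply card_ge_of_subset
    intro u hu
    rw [Finset.mem_union, Finset.mem_Ico, Finset.mem_Ico] at hu
    rcases hu with hu | hu
    · exact ⟨by omega, hnear u (by omega) (by omega) _⟩
    · exact ⟨by omega, hfar u (by omega) _ (vis_c3 rfl h2 (by simp only; omega))⟩
  · -- `s ≤ i < s + K`
    have hc : k + 1 + (k + 1 - ((i : ℕ) - s + (k + 1) + 1 - a)) =
        (Finset.Ico ((i : ℕ) + 1) (i + (k + 1) + 1) ∪
          Finset.Ico (max (s + a) (i + (k + 1) + 1)) (s + a + (k + 1))).card := by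
      rw [Finset.card_union_of_disjoint, Nat.card_Ico, Nat.card_Ico]
      · omega
      · rw [Finset.disjoint_left]
        intro u hu hu'
        rw [Finset.mem_Ico] at hu hu'
        omega
    rw [hc]
    apply card_ge_of_subset
    intro u hu
    rw [Finset.mem_union, Finset.mem_Ico, Finset.mem_Ico] at hu
    rcases hu with hu | hu
    · exact ⟨by omega, hnear u (by omega) (by omega) _⟩
    · exact ⟨by omega, hfar u (by omega) _
        (vis_c4 (by omega) (by omega) (by omega) (by simp only; omega))⟩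
  · -- `s + K ≤ i < s + a`
    have hc : k + 1 = (Finset.Ico ((i : ℕ) + 1) (i + (k + 1) + 1)).card := by
      rw [Nat.card_Ico]
      omega
    conv_lhs => rw [hc]
    apply card_ge_of_subset
    intro u hu
    rw [Finset.mem_Ico] at hu
    exact ⟨by omega, hnear u (by omega) (by omega) _⟩
  · -- `s + a ≤ i`
    have hc : s + a + (k + 1) - 1 - (i : ℕ) = (Finset.Ico ((i : ℕ) + 1) (s + a + (k + 1))).card := by
      rw [Nat.card_Ico]
      omega
    rw [hc]
    apply card_ge_of_subset
    intro u hu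
    rw [Finset.mem_Ico] at hu
    exact ⟨by omega, hnear u (by omega) (by omega) _⟩

theorem sum_gnum_le {s a k : ℕ} (hs : k + 1 ≤ s) (ha : k + 1 ≤ a) :
    ∑ i ∈ Finset.range (s + a + (k + 1)), gnum s a (k + 1) i ≤
      (visGraph (fam s a (k + 1)) k).edgeSet.ncard := by
  classical
  rw [← Fin.sum_univ_eq_sum_range]
  refine le_trans (Finset.sum_le_sum fun i _ => gnum_le hs ha i) ?_
  apply sum_card_le
  intro i j hj
  simpa using hj

/-- `∑_{i < K} (i + 1 - t)`, truncated differences -/
theorem sum_trunc (K t : ℕ) :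
    2 * ∑ i ∈ Finset.range K, (i + 1 - t) = (K - t) * (K - t + 1) := by
  induction K with
  | zero => simp
  | succ K ih =>
    rw [Finset.sum_range_succ, Nat.mul_add, ih]
    rcases Nat.lt_or_ge K t with h | h
    · rw [Nat.sub_eq_zero_of_le (by omega : K ≤ t), Nat.sub_eq_zero_of_le (by omega : K + 1 ≤ t)]
    · obtain ⟨d, rfl⟩ := Nat.exists_eq_add_of_le h
      rw [show t + d - t = d by omega, show t + d + 1 - t = d + 1 by omega]
      ring

theorem sum_rev (K : ℕ) : 2 * ∑ i ∈ Finset.range K, (K - 1 - i) + K = K * K := by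
  have h := Finset.sum_range_reflect (fun i => i) K
  rw [h]
  have := Finset.sum_range_id_mul_two K
  rcases K with _ | K
  · simp
  · simp only [Nat.add_sub_cancel] at this
    nlinarith

theorem sum_gnum (K s' a' : ℕ) :
    2 * ∑ i ∈ Finset.range ((K + s') + (K + a') + K), gnum (K + s') (K + a') K i
      + K * (K + 1) + (K - s') * (K - s' + 1) + (K - a') * (K - a' + 1) =
      4 * K * ((K + s') + (K + a') + K) := by
  rw [show (K + s') + (K + a') + K = K + (s' + (K + (a' + K))) by ring,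
    Finset.sum_range_add, Finset.sum_range_add, Finset.sum_range_add, Finset.sum_range_add]
  have e1 : ∑ x ∈ Finset.range K, gnum (K + s') (K + a') K x + ∑ i ∈ Finset.range K, (i + 1 - s') =
      K * (K + K + (K + a')) := by
    rw [← Finset.sum_add_distrib]
    rw [Finset.sum_congr rfl (g := fun _ => K + K + (K + a')), Finset.sum_const, Finset.card_range,
      smul_eq_mul]
    intro i hi
    have := Finset.mem_range.1 hi
    unfold gnum
    rw [if_pos this]
    omega
  have e2 : ∑ x ∈ Finset.range s', gnum (K + s') (K + a') K (K + x) = s' * (K + K) := by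
    rw [Finset.sum_congr rfl (g := fun _ => K + K), Finset.sum_const, Finset.card_range,
      smul_eq_mul]
    intro i hi
    have := Finset.mem_range.1 hi
    unfold gnum
    rw [if_neg (by omega), if_pos (by omega)]
  have e3 : ∑ x ∈ Finset.range K, gnum (K + s') (K + a') K (K + (s' + x)) +
      ∑ i ∈ Finset.range K, (i + 1 - a') = K * (K + K) := by
    rw [← Finset.sum_add_distrib]
    rw [Finset.sum_congr rfl (g := fun _ => K + K), Finset.sum_const, Finset.card_range,
      smul_eq_mul]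
    intro i hi
    have := Finset.mem_range.1 hi
    unfold gnum
    rw [if_neg (by omega), if_neg (by omega), if_pos (by omega)]
    omega
  have e4 : ∑ x ∈ Finset.range a', gnum (K + s') (K + a') K (K + (s' + (K + x))) = a' * K := by
    rw [Finset.sum_congr rfl (g := fun _ => K), Finset.sum_const, Finset.card_range,
      smul_eq_mul]
    intro i hi
    have := Finset.mem_range.1 hi
    unfold gnum
    rw [if_neg (by omega), if_neg (by omega), if_neg (by omega), if_pos (by omega)]
  have e5 : ∑ x ∈ Finset.range K, gnum (K + s') (K + a') K (K + (s' + (K + (a' + x)))) =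
      ∑ i ∈ Finset.range K, (K - 1 - i) := by
    apply Finset.sum_congr rfl
    intro i hi
    have := Finset.mem_range.1 hi
    unfold gnum
    rw [if_neg (by omega), if_neg (by omega), if_neg (by omega), if_neg (by omega)]
    omega
  have t1 := sum_trunc K s'
  have t2 := sum_trunc K a'
  have t3 := sum_rev K
  rw [e2, e4, e5]
  have hfin : 2 * (∑ x ∈ Finset.range K, gnum (K + s') (K + a') K x +
      ∑ i ∈ Finset.range K, (i + 1 - s')) +
      2 * (∑ x ∈ Finset.range K, gnum (K + s') (K + a') K (K + (s' + x)) +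
      ∑ i ∈ Finset.range K, (i + 1 - a')) = 2 * (K * (K + K + (K + a'))) + 2 * (K * (K + K)) := by
    rw [e1, e3]
  nlinarith [hfin, t1, t2, t3]

end Pool.Agent.R32.SA
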